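import Pool.Agent.L7h48.RT.Stm

namespace Pool.Agent.L7h55.RT
open Pool.Agent.L7h48.RT
open scoped Classical

theorem w1_nonneg {c : ℕ} {p : ℝ} (h0 : 0 ≤ p) (h1 : p ≤ 1) (s : Option (Fin c)) :
    0 ≤ w1 c p s := by
  unfold w1
  split_ifs
  · linarith
  · positivity

theorem w1_sum {c : ℕ} (hc : 0 < c) (p : ℝ) : ∑ s : Option (Fin c), w1 c p s = 1 := by
  rw [Fintype.sum_option]
  have hc' : (c : ℝ) ≠ 0 := by positivity
  simp only [w1, reduceCtorEq, if_true, if_false, Finset.sum_const, Finset.card_univ,
    Fintype.card_fin, nsmul_eq_mul]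
  field_simp
  ring

section
variable {ι S : Type} [Fintype ι] [DecidableEq ι] [Fintype S]

theorem E_mono {w : S → ℝ} (hw : ∀ s, 0 ≤ w s) {f g : (ι → S) → ℝ} (h : ∀ x, f x ≤ g x) :
    E w f ≤ E w g := by
  unfold E
  apply Finset.sum_le_sum
  intro x _
  exact mul_le_mul_of_nonneg_left (h x) (Finset.prod_nonneg fun e _ => hw _)

theorem E_const {w : S → ℝ} (hw : ∑ s, w s = 1) (a : ℝ) :
    E w (fun _ : ι → S => a) = a := by
  unfold E
  rw [← Finset.sum_mul]
  have h : ∑ x : ι → S, ∏ e, w (x e) = ∏ _e : ι, ∑ s, w s := by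
    rw [Finset.prod_univ_sum, Fintype.piFinset_univ]
  rw [h, hw, Finset.prod_const_one, one_mul]

end

theorem s_MNE (hF : S_FMN) (hM : S_MRG) : S_MNE := by
  intro n c k l hc hk hl
  constructor
  · intro p hp p' hp' hpp
    simp only
    by_cases h1 : p = 1
    · have : p' = 1 := le_antisymm hp'.2 (by rw [← h1]; exact hpp)
      rw [h1, this]
    · have hp1 : 0 < 1 - p := by
        have := lt_of_le_of_ne hp.2 h1
        linarith
      set q := (p' - p) / (1 - p) with hq
      have hq0 : 0 ≤ q := div_nonneg (by linarith) hp1.le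
      have hq1 : q ≤ 1 := by
        rw [hq, div_le_one hp1]
        linarith [hp'.2]
      have hpq : p + (1 - p) * q = p' := by
        rw [hq]
        field_simp
        ring
      rw [← hpq, hM n c p q _ hc]
      apply E_mono (w1_nonneg hp.1 hp.2)
      intro x
      calc F k l x = E (w1 c q) (fun _ : Col n c => F k l x) := (E_const (w1_sum hc q) _).symm
        _ ≤ _ := by
          apply E_mono (w1_nonneg hq0 hq1)
          intro z
          refine (hF n c k l x hk hl).2.2.1 (merge x z) ?_
          intro e he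
          unfold merge
          cases hx : x e with
          | none => exact absurd hx he
          | some j => rfl
  · intro p hp
    constructor
    · calc (0 : ℝ) = E (w1 c p) (fun _ : Col n c => (0 : ℝ)) := (E_const (w1_sum hc p) _).symm
        _ ≤ _ := E_mono (w1_nonneg hp.1 hp.2) fun x => (hF n c k l x hk hl).1
    · calc E (w1 c p) (F k l : Col n c → ℝ) ≤ E (w1 c p) (fun _ : Col n c => (n : ℝ)) :=
          E_mono (w1_nonneg hp.1 hp.2) fun x => (hF n c k l x hk hl).2.1
        _ = n := E_const (w1_sum hc p) _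

end Pool.Agent.L7h55.RT
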